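import Mathlib

/-!
# Canonical join complexes are not closed under induced subcomplexes

For a finite semidistributive lattice `L`, let `N` be the graph on the join-irreducible elements
whose edges are the pairs that are not faces of the canonical join complex.  We show: if `N` is
triangle-free then it is 3-colourable.  On the other hand every finite graph is an induced subgraph
of such an `N`.  Applying this to the Groetzsch graph (triangle-free and not 3-colourable) gives
a finite semidistributive lattice and an induced subcomplex of its canonical join complex that is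
not the canonical join complex of any finite semidistributive lattice.
-/

namespace Pool.Agent.Results.MP_b1aa48_co.NotClosedInduced

universe u v

/-- A lattice is semidistributive if it is join-semidistributive and meet-semidistributive. -/
structure Semidistributive (L : Type u) [Lattice L] : Prop where
  join_sd : ∀ x y z : L, x ⊔ y = x ⊔ z → x ⊔ (y ⊓ z) = x ⊔ y
  meet_sd : ∀ x y z : L, x ⊓ y = x ⊓ z → x ⊓ (y ⊔ z) = x ⊓ y

/-- `A` is the canonical join representation of `w`: its join is `w`, no proper subset of `A`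
has join `w`, and `A` refines every set whose join is `w`. -/
structure IsCanonicalJoinRep {L : Type u} [Lattice L] (A : Set L) (w : L) : Prop where
  isLUB : IsLUB A w
  irredundant : ∀ B : Set L, B ⊂ A → ¬ IsLUB B w
  refines : ∀ B : Set L, IsLUB B w → ∀ a ∈ A, ∃ b ∈ B, a ≤ b

/-- The join-irreducible elements of `L`. -/
abbrev JIrr (L : Type u) [Lattice L] : Type u := {j : L // SupIrred j}

/-- The faces of the canonical join complex of `L`: the finite sets of join-irreducible elements
that are the canonical join representation of some element of `L`. -/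
def canonicalJoinComplex (L : Type u) [Lattice L] : Set (Finset (JIrr L)) :=
  {s | ∃ w : L, IsCanonicalJoinRep (Subtype.val '' (s : Set (JIrr L))) w}

/-- The subcomplex induced on the vertex set `W`: its faces are the faces contained in `W`. -/
def induced {V : Type u} (D : Set (Finset V)) (W : Set V) : Set (Finset W) :=
  {s | s.map (Function.Embedding.subtype (· ∈ W)) ∈ D}

/-- Two complexes (families of finite sets on vertex sets `V` and `V'`) are isomorphic if a
bijection of the vertex sets carries the faces of one exactly to the faces of the other. -/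
def Isomorphic {V : Type u} {V' : Type v} (D : Set (Finset V)) (D' : Set (Finset V')) : Prop :=
  ∃ e : V ≃ V', ∀ s : Finset V, s ∈ D ↔ s.map e.toEmbedding ∈ D'

/-! ### Part 1: facts about a finite semidistributive lattice -/

section General

variable {L : Type u} [Lattice L] [Finite L]

theorem exists_low {x : L} (hx : SupIrred x) : ∃ x', x' < x ∧ ∀ t, t < x → t ≤ x' := by
  have hne : ({t : L | t < x}).Nonempty := by
    by_contra h
    apply hx.1
    intro b hb
    by_contra hxb
    exact h ⟨b, lt_of_le_not_ge hb hxb⟩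
  obtain ⟨m, hm⟩ := (Set.toFinite {t : L | t < x}).exists_maximal hne
  refine ⟨m, hm.1, fun t ht => ?_⟩
  have h1 : m ⊔ t ≤ x := sup_le hm.1.le ht.le
  have h2 : m ⊔ t ≠ x := by
    intro h
    rcases hx.2 h with h | h
    · exact hm.1.ne h
    · exact ht.ne h
  have h3 : m ⊔ t ∈ {t : L | t < x} := lt_of_le_of_ne h1 h2
  exact le_sup_right.trans (hm.2 h3 le_sup_left)

theorem exists_kap (hL : Semidistributive L) {x x' : L} (h1 : x' < x)
    (h2 : ∀ t, t < x → t ≤ x') :
    ∃ k, x' ≤ k ∧ ¬ x ≤ k ∧ ∀ m, x' ≤ m → ¬ x ≤ m → m ≤ k := by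
  have key : ∀ m, x' ≤ m → ¬ x ≤ m → x ⊓ m = x' := by
    intro m hm hxm
    apply le_antisymm
    · apply h2
      refine lt_of_le_of_ne inf_le_left ?_
      intro h
      exact hxm (h ▸ inf_le_right)
    · exact le_inf h1.le hm
  obtain ⟨k, hk⟩ := (Set.toFinite {m : L | x' ≤ m ∧ ¬ x ≤ m}).exists_maximal
    ⟨x', le_refl _, h1.not_ge⟩
  refine ⟨k, hk.1.1, hk.1.2, fun m hm hxm => ?_⟩
  have e1 : x ⊓ m = x ⊓ k := by rw [key m hm hxm, key k hk.1.1 hk.1.2]
  have e2 := hL.meet_sd x m k e1
  have h3 : m ⊔ k ∈ {m : L | x' ≤ m ∧ ¬ x ≤ m} := by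
    refine ⟨hm.trans le_sup_left, fun h => ?_⟩
    rw [key m hm hxm, inf_eq_left.mpr h] at e2
    exact h1.ne e2.symm
  exact le_sup_left.trans (hk.2 h3 le_sup_right)

end General

/-- Data attached to a finite semidistributive lattice: lower covers and kappa map. -/
structure KData (L : Type u) [Lattice L] (low kap : JIrr L → L) : Prop where
  low_lt : ∀ x, low x < x.1
  le_low : ∀ x t, t < x.1 → t ≤ low x
  low_le_kap : ∀ x, low x ≤ kap x
  not_le_kap : ∀ x, ¬ x.1 ≤ kap x
  le_kap : ∀ x m, low x ≤ m → ¬ x.1 ≤ m → m ≤ kap x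

theorem exists_kdata {L : Type u} [Lattice L] [Finite L] (hL : Semidistributive L) :
    ∃ low kap : JIrr L → L, KData L low kap := by
  have h1 : ∀ x : JIrr L, ∃ x', x' < x.1 ∧ ∀ t, t < x.1 → t ≤ x' := fun x => exists_low x.2
  choose low hlow1 hlow2 using h1
  have h2 : ∀ x : JIrr L, ∃ k, low x ≤ k ∧ ¬ x.1 ≤ k ∧ ∀ m, low x ≤ m → ¬ x.1 ≤ m → m ≤ k :=
    fun x => exists_kap hL (hlow1 x) (hlow2 x)
  choose kap hk1 hk2 hk3 using h2
  exact ⟨low, kap, hlow1, hlow2, hk1, hk2, hk3⟩

section Pairs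

variable {L : Type u} [Lattice L] {low kap : JIrr L → L}

theorem KData.kap_inj (hd : KData L low kap) (hL : Semidistributive L) {x y : JIrr L}
    (h : kap x = kap y) : x = y := by
  have e1 : kap x ⊔ x.1 = kap x ⊔ y.1 := by
    apply le_antisymm
    · refine sup_le le_sup_left ?_
      by_contra hx
      have := hd.le_kap x (kap x ⊔ y.1) ((hd.low_le_kap x).trans le_sup_left) hx
      have hy : y.1 ≤ kap y := by rw [← h]; exact le_sup_right.trans this
      exact hd.not_le_kap y hy
    · refine sup_le le_sup_left ?_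
      by_contra hx
      have := hd.le_kap y (kap x ⊔ x.1) (by rw [h]; exact (hd.low_le_kap y).trans le_sup_left) hx
      have hy : x.1 ≤ kap x := by rw [h]; exact le_sup_right.trans this
      exact hd.not_le_kap x hy
  have e2 := hL.join_sd _ _ _ e1
  have hx : x.1 ⊓ y.1 = x.1 := by
    by_contra hne
    have hlt : x.1 ⊓ y.1 < x.1 := lt_of_le_of_ne inf_le_left hne
    have h3 := (hd.le_low x _ hlt).trans (hd.low_le_kap x)
    rw [sup_eq_left.mpr h3] at e2
    exact hd.not_le_kap x (e2 ▸ le_sup_right)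
  have hy : x.1 ⊓ y.1 = y.1 := by
    by_contra hne
    have hlt : x.1 ⊓ y.1 < y.1 := lt_of_le_of_ne inf_le_right hne
    have h3 := (hd.le_low y _ hlt).trans (hd.low_le_kap y)
    rw [← h] at h3
    rw [sup_eq_left.mpr h3, e1] at e2
    exact hd.not_le_kap y (h ▸ e2 ▸ le_sup_right)
  exact Subtype.ext (hx.symm.trans hy)

theorem isLUB_pair_eq {L : Type u} [Lattice L] {a b w : L} (h : IsLUB {a, b} w) :
    w = a ⊔ b := h.unique isLUB_pair

theorem KData.le_kap_of_face (hd : KData L low kap) {x y : JIrr L} {w : L} (hne : x ≠ y)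
    (h : IsCanonicalJoinRep ({x.1, y.1} : Set L) w) : y.1 ≤ kap x := by
  have hw : w = x.1 ⊔ y.1 := isLUB_pair_eq h.isLUB
  by_contra hcon
  have hxm : x.1 ≤ low x ⊔ y.1 := by
    by_contra hx
    exact hcon (le_sup_right.trans (hd.le_kap x _ le_sup_left hx))
  have hw' : low x ⊔ y.1 = w := by
    rw [hw]
    exact le_antisymm (sup_le_sup_right (hd.low_lt x).le _) (sup_le hxm le_sup_right)
  have hlub : IsLUB ({low x, y.1} : Set L) w := hw' ▸ isLUB_pair
  obtain ⟨b, hb, hxb⟩ := h.refines _ hlub x.1 (by simp)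
  rcases hb with rfl | hb
  · exact (hd.low_lt x).not_ge hxb
  · rw [Set.mem_singleton_iff] at hb
    subst hb
    have hlub2 : IsLUB ({y.1} : Set L) w := by
      rw [hw, sup_eq_right.mpr hxb]
      exact isLUB_singleton
    refine h.irredundant {y.1} ?_ hlub2
    refine ⟨by simp, fun hsub => ?_⟩
    have : x.1 ∈ ({y.1} : Set L) := hsub (by simp)
    exact hne (Subtype.ext this)

theorem KData.refine_aux (hd : KData L low kap) (hL : Semidistributive L) {x y : JIrr L}
    (hyx : y.1 ≤ kap x) {B : Set L} (hB : IsLUB B (x.1 ⊔ y.1)) : ∃ b ∈ B, x.1 ≤ b := by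
  obtain ⟨b, hb, hbk⟩ : ∃ b ∈ B, ¬ b ≤ kap x := by
    by_contra hcon
    push Not at hcon
    have : x.1 ⊔ y.1 ≤ kap x := hB.2 hcon
    exact hd.not_le_kap x (le_sup_left.trans this)
  refine ⟨b, hb, ?_⟩
  have hbw : b ≤ x.1 ⊔ y.1 := hB.1 hb
  set w := x.1 ⊔ y.1 with hw
  set w' := kap x ⊓ w with hw'
  have hlow : low x ≤ w' := le_inf (hd.low_le_kap x) ((hd.low_lt x).le.trans le_sup_left)
  have hy : y.1 ≤ w' := le_inf hyx le_sup_right
  have hxt : x.1 ≤ w' ⊔ b := by
    by_contra hx
    exact hbk (le_sup_right.trans (hd.le_kap x _ (hlow.trans le_sup_left) hx))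
  have e1 : w' ⊔ b = w :=
    le_antisymm (sup_le inf_le_right hbw) (sup_le hxt (hy.trans le_sup_left))
  have e2 : w' ⊔ x.1 = w :=
    le_antisymm (sup_le inf_le_right le_sup_left) (sup_le le_sup_right (hy.trans le_sup_left))
  have e3 := hL.join_sd _ _ _ (e1.trans e2.symm)
  by_contra hxb
  have hlt : b ⊓ x.1 < x.1 := lt_of_le_of_ne inf_le_right (fun h => hxb (h ▸ inf_le_left))
  have h4 : b ⊓ x.1 ≤ w' := (hd.le_low x _ hlt).trans hlow
  rw [sup_eq_left.mpr h4, e1] at e3
  have : x.1 ≤ kap x := by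
    calc x.1 ≤ w := le_sup_left
      _ = w' := e3.symm
      _ ≤ kap x := inf_le_left
  exact hd.not_le_kap x this

theorem KData.face_of_le_kap (hd : KData L low kap) (hL : Semidistributive L) {x y : JIrr L}
    (hxy : x.1 ≤ kap y) (hyx : y.1 ≤ kap x) :
    IsCanonicalJoinRep ({x.1, y.1} : Set L) (x.1 ⊔ y.1) := by
  refine ⟨isLUB_pair, ?_, ?_⟩
  · intro B hB hlub
    obtain ⟨hsub, hnot⟩ := hB
    by_cases hxB : x.1 ∈ B
    · have hyB : y.1 ∉ B := by
        intro hyB
        exact hnot (by
          intro z hz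
          rcases hz with rfl | hz
          · exact hxB
          · rw [Set.mem_singleton_iff] at hz; rw [hz]; exact hyB)
      have : x.1 ⊔ y.1 ≤ x.1 := by
        apply hlub.2
        intro z hz
        rcases hsub hz with rfl | hz'
        · exact le_rfl
        · rw [Set.mem_singleton_iff] at hz'; exact absurd (hz' ▸ hz) hyB
      exact hd.not_le_kap y ((le_sup_right.trans this).trans hxy)
    · have : x.1 ⊔ y.1 ≤ y.1 := by
        apply hlub.2
        intro z hz
        rcases hsub hz with rfl | hz'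
        · exact absurd hz hxB
        · rw [Set.mem_singleton_iff] at hz'; exact hz'.le
      exact hd.not_le_kap x ((le_sup_left.trans this).trans hyx)
  · intro B hB a ha
    rcases ha with rfl | ha
    · exact hd.refine_aux hL hyx hB
    · rw [Set.mem_singleton_iff] at ha
      subst ha
      rw [sup_comm] at hB
      exact hd.refine_aux hL hxy hB

open Classical in
theorem KData.pair_mem_iff (hd : KData L low kap) (hL : Semidistributive L) {x y : JIrr L}
    (hne : x ≠ y) :
    ({x, y} : Finset (JIrr L)) ∈ canonicalJoinComplex L ↔ (x.1 ≤ kap y ∧ y.1 ≤ kap x) := by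
  have himg : (Subtype.val '' ((({x, y} : Finset (JIrr L))) : Set (JIrr L)) : Set L)
      = {x.1, y.1} := by
    simp [Set.image_pair]
  unfold canonicalJoinComplex
  rw [Set.mem_ofPred_eq, himg]
  constructor
  · rintro ⟨w, hw⟩
    refine ⟨?_, hd.le_kap_of_face hne hw⟩
    rw [Set.pair_comm] at hw
    exact hd.le_kap_of_face hne.symm hw
  · rintro ⟨h1, h2⟩
    exact ⟨_, hd.face_of_le_kap hL h1 h2⟩

theorem KData.factor [Finite L] (hd : KData L low kap) {x y : JIrr L} (h : ¬ x.1 ≤ kap y) :
    ∃ z : JIrr L, z.1 ≤ x.1 ∧ kap y ≤ kap z := by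
  obtain ⟨z, hz⟩ := (Set.toFinite {t : L | t ≤ x.1 ∧ ¬ t ≤ kap y}).exists_minimal
    ⟨x.1, le_refl _, h⟩
  have hmin : ∀ t, t < z → t ≤ kap y := by
    intro t ht
    by_contra hty
    have : t ∈ {t : L | t ≤ x.1 ∧ ¬ t ≤ kap y} := ⟨ht.le.trans hz.1.1, hty⟩
    exact ht.not_ge (hz.2 this ht.le)
  have hirr : SupIrred z := by
    constructor
    · intro hm
      exact hz.1.2 ((hm (inf_le_left : z ⊓ kap y ≤ z)).trans inf_le_right)
    · intro b c hbc
      by_contra hcon
      push Not at hcon
      have hb : b < z := lt_of_le_of_ne (hbc ▸ le_sup_left) hcon.1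
      have hc : c < z := lt_of_le_of_ne (hbc ▸ le_sup_right) hcon.2
      exact hz.1.2 (hbc ▸ sup_le (hmin b hb) (hmin c hc))
  refine ⟨⟨z, hirr⟩, hz.1.1, ?_⟩
  exact hd.le_kap ⟨z, hirr⟩ (kap y) (hmin _ (hd.low_lt ⟨z, hirr⟩)) hz.1.2

end Pairs

/-- Non-faces of size two. -/
def NonFace (L : Type u) [Lattice L] (x y : JIrr L) : Prop :=
  x ≠ y ∧ ∀ s : Finset (JIrr L), (∀ z, z ∈ s ↔ z = x ∨ z = y) → s ∉ canonicalJoinComplex L

theorem nonFace_iff {L : Type u} [Lattice L] {low kap : JIrr L → L}
    (hd : KData L low kap) (hL : Semidistributive L) {x y : JIrr L} :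
    NonFace L x y ↔ (x ≠ y ∧ (¬ x.1 ≤ kap y ∨ ¬ y.1 ≤ kap x)) := by
  classical
  unfold NonFace
  constructor
  · rintro ⟨hne, h⟩
    refine ⟨hne, ?_⟩
    by_contra hcon
    push Not at hcon
    exact h {x, y} (by simp) ((hd.pair_mem_iff hL hne).mpr hcon)
  · rintro ⟨hne, h⟩
    refine ⟨hne, fun s hs hmem => ?_⟩
    have : s = {x, y} := by ext z; simp [hs z]
    subst this
    have := (hd.pair_mem_iff hL hne).mp hmem
    tauto

/-- If the graph of non-faces of size two is triangle-free, then it is 3-colourable. -/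
theorem three_colour {L : Type u} [Lattice L] [Finite L] (hL : Semidistributive L)
    (htri : ∀ x y z : JIrr L, NonFace L x y → NonFace L y z → NonFace L x z → False) :
    ∃ c : JIrr L → Fin 3, ∀ x y, NonFace L x y → c x ≠ c y := by
  classical
  obtain ⟨low, kap, hd⟩ := exists_kdata hL
  -- arrows
  let ar : JIrr L → JIrr L → Prop := fun x y => ¬ x.1 ≤ kap y
  have hN : ∀ x y, NonFace L x y ↔ (x ≠ y ∧ (ar x y ∨ ar y x)) := fun x y => nonFace_iff hd hL
  have htri' : ∀ x y z : JIrr L, x ≠ y → y ≠ z → x ≠ z → (ar x y ∨ ar y x) →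
      (ar y z ∨ ar z y) → (ar x z ∨ ar z x) → False := by
    intro x y z h1 h2 h3 a1 a2 a3
    exact htri x y z ((hN x y).2 ⟨h1, a1⟩) ((hN y z).2 ⟨h2, a2⟩) ((hN x z).2 ⟨h3, a3⟩)
  have hF : ∀ x y, ar x y → x ≠ y → (kap y ≤ kap x ∨ y.1 ≤ x.1) := by
    intro x y hxy hne
    obtain ⟨z, hz1, hz2⟩ := hd.factor hxy
    have a1 : ar x z := fun h => hd.not_le_kap z (hz1.trans h)
    have a2 : ar z y := fun h => hd.not_le_kap z (h.trans hz2)
    by_cases hzx : z = x
    · left; rw [← hzx]; exact hz2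
    by_cases hzy : z = y
    · right; rw [← hzy]; exact hz1
    exact (htri' x y z hne (Ne.symm hzy) (Ne.symm hzx) (Or.inl hxy) (Or.inr a2)
      (Or.inl a1)).elim
  have hA : ∀ x y, ar x y → ar y x → x ≠ y → False := by
    intro x y hxy hyx hne
    rcases hF x y hxy hne with h1 | h1 <;> rcases hF y x hyx hne.symm with h2 | h2
    · exact hne (hd.kap_inj hL (le_antisymm h2 h1))
    · have hlt : x.1 < y.1 := lt_of_le_of_ne h2 (fun h => hne (Subtype.ext h))
      exact hd.not_le_kap x (((hd.le_low y _ hlt).trans (hd.low_le_kap y)).trans h1)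
    · have hlt : y.1 < x.1 := lt_of_le_of_ne h1 (fun h => hne (Subtype.ext h.symm))
      exact hd.not_le_kap y (((hd.le_low x _ hlt).trans (hd.low_le_kap x)).trans h2)
    · exact hne (Subtype.ext (le_antisymm h2 h1))
  have hS : ∀ x y, ar x y → x ≠ y →
      ((∀ w, w ≠ x → ¬ ar w x) ∨ (∀ w, w ≠ y → ¬ ar y w)) := by
    intro x y hxy hne
    rcases hF x y hxy hne with h1 | h1
    · left
      intro w hw hwx
      have hwy : ar w y := fun h => hwx (h.trans h1)
      by_cases hwy' : w = y
      · subst hwy'; exact hA x w hxy hwx hne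
      · exact htri' x y w hne (Ne.symm hwy') (Ne.symm hw) (Or.inl hxy) (Or.inr hwy)
          (Or.inr hwx)
    · right
      intro w hw hyw
      have hxw : ar x w := fun h => hyw (h1.trans h)
      by_cases hwx' : w = x
      · subst hwx'; exact hA w y hxy hyw hne
      · exact htri' x y w hne (Ne.symm hw) (Ne.symm hwx') (Or.inl hxy) (Or.inl hyw)
          (Or.inl hxw)
  let c : JIrr L → Fin 3 := fun x =>
    if (∀ w, w ≠ x → ¬ ar w x) then 0 else if (∀ w, w ≠ x → ¬ ar x w) then 2 else 1
  have hc : ∀ x y, ar x y → x ≠ y → c x ≠ c y := by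
    intro x y hxy hne
    have hy0 : ¬ (∀ w, w ≠ y → ¬ ar w y) := fun h => h x hne hxy
    have hx2 : ¬ (∀ w, w ≠ x → ¬ ar x w) := fun h => h y hne.symm hxy
    rcases hS x y hxy hne with h | h
    · have e1 : c x = 0 := if_pos h
      have e2 : c y ≠ 0 := by
        show (if (∀ w, w ≠ y → ¬ ar w y) then (0 : Fin 3) else
          if (∀ w, w ≠ y → ¬ ar y w) then 2 else 1) ≠ 0
        rw [if_neg hy0]
        split_ifs <;> decide
      rw [e1]; exact e2.symm
    · have e2 : c y = 2 := by
        show (if (∀ w, w ≠ y → ¬ ar w y) then (0 : Fin 3) else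
          if (∀ w, w ≠ y → ¬ ar y w) then 2 else 1) = 2
        rw [if_neg hy0, if_pos h]
      have e1 : c x ≠ 2 := by
        show (if (∀ w, w ≠ x → ¬ ar w x) then (0 : Fin 3) else
          if (∀ w, w ≠ x → ¬ ar x w) then 2 else 1) ≠ 2
        rw [if_neg hx2]
        split_ifs <;> decide
      rw [e2]; exact e1
  refine ⟨c, fun x y hxy => ?_⟩
  obtain ⟨hne, h | h⟩ := (hN x y).1 hxy
  · exact hc x y h hne
  · exact (hc y x h hne.symm).symm

/-! ### Part 2: every finite graph occurs inside a graph of non-faces -/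

section Construction

variable {V : Type} (r : V → V → Prop)

/-- The closed sets: pairs `(A, S)` of a set `A` of pairs and a set `S` of vertices. -/
@[ext]
structure St where
  A : Set (V × V)
  S : Set V
  h1 : ∀ x ∈ S, ∀ y, r x y → (x, y) ∈ A
  h2 : ∀ x, (∀ y, r x y → (x, y) ∈ A) → (∃ w, r w x ∧ (w, x) ∈ A) → x ∈ S

instance [Finite V] : Finite (St r) := by
  have : Function.Injective (fun p : St r => (p.A, p.S)) := by
    intro p q h
    simp only [Prod.mk.injEq] at h
    exact St.ext h.1 h.2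
  exact Finite.of_injective _ this

variable {r}

/-- join of two closed sets -/
def St.join (p q : St r) : St r where
  A := p.A ∪ q.A
  S := {x | x ∈ p.S ∨ x ∈ q.S ∨
    ((∀ y, r x y → (x, y) ∈ p.A ∪ q.A) ∧ ∃ w, r w x ∧ (w, x) ∈ p.A ∪ q.A)}
  h1 := by
    rintro x (hx | hx | hx) y hy
    · exact Or.inl (p.h1 x hx y hy)
    · exact Or.inr (q.h1 x hx y hy)
    · exact hx.1 y hy
  h2 := by
    intro x hx hw
    exact Or.inr (Or.inr ⟨hx, hw⟩)

/-- meet of two closed sets -/
def St.meet (p q : St r) : St r where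
  A := p.A ∩ q.A
  S := p.S ∩ q.S
  h1 := by
    rintro x ⟨hx, hx'⟩ y hy
    exact ⟨p.h1 x hx y hy, q.h1 x hx' y hy⟩
  h2 := by
    rintro x hx ⟨w, hw, hw1, hw2⟩
    exact ⟨p.h2 x (fun y hy => (hx y hy).1) ⟨w, hw, hw1⟩,
      q.h2 x (fun y hy => (hx y hy).2) ⟨w, hw, hw2⟩⟩

instance : Lattice (St r) where
  le p q := p.A ⊆ q.A ∧ p.S ⊆ q.S
  le_refl p := ⟨subset_rfl, subset_rfl⟩
  le_trans p q s h h' := ⟨h.1.trans h'.1, h.2.trans h'.2⟩
  le_antisymm p q h h' := St.ext (h.1.antisymm h'.1) (h.2.antisymm h'.2)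
  sup := St.join
  inf := St.meet
  le_sup_left p q := ⟨Set.subset_union_left, fun _ hx => Or.inl hx⟩
  le_sup_right p q := ⟨Set.subset_union_right, fun _ hx => Or.inr (Or.inl hx)⟩
  sup_le p q s h h' := by
    refine ⟨Set.union_subset h.1 h'.1, ?_⟩
    rintro x (hx | hx | hx)
    · exact h.2 hx
    · exact h'.2 hx
    · obtain ⟨h3, w, h4, h5⟩ := hx
      exact s.h2 x (fun y hy => Set.union_subset h.1 h'.1 (h3 y hy))
        ⟨w, h4, Set.union_subset h.1 h'.1 h5⟩
  inf_le_left p q := ⟨Set.inter_subset_left, Set.inter_subset_left⟩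
  inf_le_right p q := ⟨Set.inter_subset_right, Set.inter_subset_right⟩
  le_inf p q s h h' := ⟨Set.subset_inter h.1 h'.1, Set.subset_inter h.2 h'.2⟩

theorem St.le_iff {p q : St r} : p ≤ q ↔ p.A ⊆ q.A ∧ p.S ⊆ q.S := Iff.rfl

theorem St.sup_A (p q : St r) : (p ⊔ q).A = p.A ∪ q.A := rfl

theorem St.mem_sup_S (p q : St r) (x : V) : x ∈ (p ⊔ q).S ↔ (x ∈ p.S ∨ x ∈ q.S ∨
    ((∀ y, r x y → (x, y) ∈ p.A ∪ q.A) ∧ ∃ w, r w x ∧ (w, x) ∈ p.A ∪ q.A)) := Iff.rfl

theorem St.inf_A (p q : St r) : (p ⊓ q).A = p.A ∩ q.A := rfl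

theorem St.inf_S (p q : St r) : (p ⊓ q).S = p.S ∩ q.S := rfl

theorem St.semidistributive : Semidistributive (St r) := by
  constructor
  · intro x y z h
    have hA : x.A ∪ y.A = x.A ∪ z.A := by
      have := congrArg St.A h
      simpa only [St.sup_A] using this
    have hS : ∀ v, v ∈ (x ⊔ y).S ↔ v ∈ (x ⊔ z).S := fun v => by rw [h]
    have hA' : x.A ∪ (y.A ∩ z.A) = x.A ∪ y.A := by
      rw [Set.union_inter_distrib_left, ← hA, Set.inter_self]
    refine St.ext ?_ ?_
    · rw [St.sup_A, St.sup_A, St.inf_A, hA']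
    · ext v
      rw [St.mem_sup_S, St.mem_sup_S, St.inf_A, St.inf_S, hA']
      constructor
      · rintro (h1 | h1 | h1)
        · exact Or.inl h1
        · exact Or.inr (Or.inl h1.1)
        · exact Or.inr (Or.inr h1)
      · intro h1
        by_cases hf : ((∀ y', r v y' → (v, y') ∈ x.A ∪ y.A) ∧ ∃ w, r w v ∧ (w, v) ∈ x.A ∪ y.A)
        · exact Or.inr (Or.inr hf)
        · have h2 : v ∈ (x ⊔ z).S := (hS v).1 h1
          rw [St.mem_sup_S, ← hA] at h2
          rcases h1 with h1 | h1 | h1
          · exact Or.inl h1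
          · rcases h2 with h2 | h2 | h2
            · exact Or.inl h2
            · exact Or.inr (Or.inl ⟨h1, h2⟩)
            · exact absurd h2 hf
          · exact absurd h1 hf
  · intro x y z h
    have hA : x.A ∩ y.A = x.A ∩ z.A := by
      have := congrArg St.A h
      simpa only [St.inf_A] using this
    have hS : x.S ∩ y.S = x.S ∩ z.S := by
      have := congrArg St.S h
      simpa only [St.inf_S] using this
    have hA' : x.A ∩ (y.A ∪ z.A) = x.A ∩ y.A := by
      rw [Set.inter_union_distrib_left, ← hA, Set.union_self]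
    refine St.ext ?_ ?_
    · rw [St.inf_A, St.inf_A, St.sup_A, hA']
    · ext v
      rw [St.inf_S, St.inf_S]
      constructor
      · rintro ⟨h1, h2⟩
        refine ⟨h1, ?_⟩
        rw [St.mem_sup_S] at h2
        rcases h2 with h2 | h2 | h2
        · exact h2
        · have : v ∈ x.S ∩ z.S := ⟨h1, h2⟩
          rw [← hS] at this
          exact this.2
        · obtain ⟨h3, w, h4, h5⟩ := h2
          have hy : ∀ y', r v y' → (v, y') ∈ y.A := by
            intro y' hy'
            have : (v, y') ∈ x.A ∩ (y.A ∪ z.A) := ⟨x.h1 v h1 y' hy', h3 y' hy'⟩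
            rw [hA'] at this
            exact this.2
          have hz : ∀ y', r v y' → (v, y') ∈ z.A := by
            intro y' hy'
            have : (v, y') ∈ x.A ∩ (y.A ∪ z.A) := ⟨x.h1 v h1 y' hy', h3 y' hy'⟩
            rw [hA', hA] at this
            exact this.2
          rcases h5 with h5 | h5
          · exact y.h2 v hy ⟨w, h4, h5⟩
          · have : v ∈ x.S ∩ z.S := ⟨h1, z.h2 v hz ⟨w, h4, h5⟩⟩
            rw [← hS] at this
            exact this.2
      · rintro ⟨h1, h2⟩
        exact ⟨h1, Or.inl h2⟩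

variable (r)

/-- the closed set generated by the vertex `x` -/
def St.gen (x : V) : St r where
  A := {e | e.1 = x ∧ r e.1 e.2}
  S := {z | z = x ∨ ((∀ y, ¬ r z y) ∧ r x z)}
  h1 := by
    rintro z (rfl | hz) y hy
    · exact ⟨rfl, hy⟩
    · exact absurd hy (hz.1 y)
  h2 := by
    rintro z hz ⟨w, hw, hw1, _⟩
    simp only at hw1
    subst hw1
    by_cases h : ∀ y, ¬ r z y
    · exact Or.inr ⟨h, hw⟩
    · push Not at h
      obtain ⟨y, hy⟩ := h
      exact Or.inl (hz y hy).1

/-- the empty closed set -/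
def St.bot : St r where
  A := ∅
  S := ∅
  h1 := by rintro x hx; exact absurd hx (Set.notMem_empty x)
  h2 := by rintro x _ ⟨w, _, hw⟩; exact absurd hw (Set.notMem_empty _)

variable {r}

theorem St.gen_le_iff {x : V} {p : St r} : St.gen r x ≤ p ↔ x ∈ p.S := by
  constructor
  · intro h
    exact h.2 (Or.inl rfl)
  · intro hx
    constructor
    · rintro ⟨a, b⟩ ⟨ha, hb⟩
      simp only at ha hb
      subst ha
      exact p.h1 a hx b hb
    · rintro z (rfl | ⟨h1, h2⟩)
      · exact hx
      · exact p.h2 z (fun y hy => absurd hy (h1 y)) ⟨x, h2, p.h1 x hx z h2⟩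

theorem St.gen_supIrred (hirr : ∀ x, ¬ r x x) (x : V) : SupIrred (St.gen r x) := by
  constructor
  · intro hmin
    have h0 : St.bot r ≤ St.gen r x := ⟨Set.empty_subset _, Set.empty_subset _⟩
    have h1 := hmin h0
    exact (Set.notMem_empty x) (h1.2 (Or.inl rfl))
  · intro b c hbc
    have hx : x ∈ (b ⊔ c).S := by rw [hbc]; exact Or.inl rfl
    rw [St.mem_sup_S] at hx
    rcases hx with hx | hx | hx
    · left
      exact le_antisymm (hbc ▸ le_sup_left) (St.gen_le_iff.2 hx)
    · right
      exact le_antisymm (hbc ▸ le_sup_right) (St.gen_le_iff.2 hx)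
    · exfalso
      obtain ⟨_, w, hw, hw'⟩ := hx
      rw [← St.sup_A, hbc] at hw'
      have : w = x := hw'.1
      subst this
      exact hirr _ hw

theorem St.gen_injective : Function.Injective (St.gen r) := by
  intro x y h
  have hx : x ∈ (St.gen r y).S := h ▸ Or.inl rfl
  have hy : y ∈ (St.gen r x).S := h ▸ Or.inl rfl
  rcases hx with hx | hx
  · exact hx
  · rcases hy with hy | hy
    · exact hy.symm
    · exact absurd hx.2 (hy.1 x)

variable (r)

/-- the lower cover of `gen x` -/
def St.genLow (x : V) (hx : ¬ r x x) : St r where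
  A := {e | e.1 = x ∧ r e.1 e.2}
  S := {z | z ≠ x ∧ ((∀ y, ¬ r z y) ∧ r x z)}
  h1 := by
    rintro z hz y hy
    exact absurd hy (hz.2.1 y)
  h2 := by
    rintro z hz ⟨w, hw, hw1, _⟩
    simp only at hw1
    subst hw1
    have hzw : z ≠ w := by rintro rfl; exact hx hw
    refine ⟨hzw, ?_, hw⟩
    intro y hy
    exact hzw (hz y hy).1

variable {r}

theorem St.le_genLow {x : V} (hx : ¬ r x x) {t : St r} (ht : t < St.gen r x) :
    t ≤ St.genLow r x hx := by
  have hxt : x ∉ t.S := by
    intro h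
    exact ht.not_ge (St.gen_le_iff.2 h)
  refine ⟨ht.le.1, ?_⟩
  intro z hz
  have hzx : z ≠ x := by rintro rfl; exact hxt hz
  rcases ht.le.2 hz with h | h
  · exact absurd h hzx
  · exact ⟨hzx, h⟩

theorem St.genLow_lt {x : V} (hx : ¬ r x x) : St.genLow r x hx < St.gen r x := by
  refine lt_of_le_not_ge ⟨subset_rfl, fun z hz => Or.inr hz.2⟩ ?_
  intro h
  exact (St.gen_le_iff.1 h).1 rfl

/-- arrows between generators in terms of the relation `r` -/
theorem St.gen_arrow_iff (hirr : ∀ x, ¬ r x x) {x y : V} (hne : x ≠ y) :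
    St.gen r y ≤ St.gen r x ⊔ St.genLow r y (hirr y) ↔ r x y := by
  rw [St.gen_le_iff, St.mem_sup_S]
  constructor
  · rintro (h | h | ⟨h1, w, h2, h3⟩)
    · rcases h with h | h
      · exact absurd h.symm hne
      · exact h.2
    · exact absurd rfl h.1
    · rcases h3 with h3 | h3
      · have : w = x := h3.1
        subst this; exact h2
      · have : w = y := h3.1
        subst this; exact absurd h2 (hirr _)
  · intro h
    refine Or.inr (Or.inr ⟨fun z hz => Or.inr ⟨rfl, hz⟩, x, h, Or.inl ⟨rfl, h⟩⟩)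

end Construction

/-- In any lattice with kappa data, `x ≤ kap y` can be read off from joins. -/
theorem KData.le_kap_iff {L : Type u} [Lattice L] {low kap : JIrr L → L}
    (hd : KData L low kap) (x : L) (y : JIrr L) : x ≤ kap y ↔ ¬ y.1 ≤ x ⊔ low y := by
  constructor
  · intro h h'
    exact hd.not_le_kap y (h'.trans (sup_le h (hd.low_le_kap y)))
  · intro h
    exact le_sup_left.trans (hd.le_kap y _ le_sup_right h)

theorem KData.low_eq {L : Type u} [Lattice L] {low kap : JIrr L → L}
    (hd : KData L low kap) (y : JIrr L) {l : L} (h1 : l < y.1) (h2 : ∀ t, t < y.1 → t ≤ l) :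
    low y = l :=
  le_antisymm (h2 _ (hd.low_lt y)) (hd.le_low y _ h1)

/-! ### Part 3: the Groetzsch graph -/

/-- The arrows (oriented edges) of the Groetzsch graph: vertices `0..4` form a 5-cycle, vertex
`5 + i` is joined to the two neighbours of `i`, and vertex `10` is joined to `5..9`. -/
def gr (x y : Fin 11) : Prop :=
  (x, y) ∈ ([(0, 1), (1, 2), (2, 3), (3, 4), (0, 4),
    (1, 5), (4, 5), (0, 6), (2, 6), (1, 7), (3, 7), (2, 8), (4, 8), (0, 9), (3, 9),
    (5, 10), (6, 10), (7, 10), (8, 10), (9, 10)] : List (Fin 11 × Fin 11))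

instance : DecidableRel gr := fun x y => by unfold gr; infer_instance

theorem gr_irrefl : ∀ x, ¬ gr x x := by decide

theorem gr_triangle : ∀ x y z : Fin 11, (gr x y ∨ gr y x) → (gr y z ∨ gr z y) →
    (gr x z ∨ gr z x) → False := by decide

theorem aux_step : ∀ k a b a' b' : Fin 3, a ≠ a' → b ≠ a' → a ≠ b' → b ≠ k → b' ≠ k →
    (if a = k then b else a) ≠ (if a' = k then b' else a') := by decide

theorem aux_ne : ∀ k a b : Fin 3, b ≠ k → (if a = k then b else a) ≠ k := by decide

theorem aux_two : ∀ k a b c : Fin 3, (a ≠ k ∧ b ≠ k ∧ c ≠ k ∧ a ≠ b ∧ b ≠ c) → a = c := by decide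

theorem aux_cycle (k d0 d1 d2 d3 d4 : Fin 3)
    (h : (d0 ≠ k ∧ d1 ≠ k ∧ d2 ≠ k ∧ d3 ≠ k ∧ d4 ≠ k) ∧
      (d0 ≠ d1 ∧ d1 ≠ d2 ∧ d2 ≠ d3 ∧ d3 ≠ d4 ∧ d4 ≠ d0)) : False := by
  obtain ⟨⟨h0, h1, h2, h3, h4⟩, h01, h12, h23, h34, h40⟩ := h
  have e1 := aux_two k d0 d1 d2 ⟨h0, h1, h2, h01, h12⟩
  have e2 := aux_two k d2 d3 d4 ⟨h2, h3, h4, h23, h34⟩
  exact h40 (e1.trans e2).symm

theorem gr_not_colourable (c : Fin 11 → Fin 3) (hc : ∀ x y, gr x y → c x ≠ c y) : False := by
  have e : ∀ x y, gr x y ∨ gr y x → c x ≠ c y := by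
    rintro x y (h | h)
    · exact hc x y h
    · exact (hc y x h).symm
  have b0 : c 5 ≠ c 10 := e _ _ (by decide)
  have b1 : c 6 ≠ c 10 := e _ _ (by decide)
  have b2 : c 7 ≠ c 10 := e _ _ (by decide)
  have b3 : c 8 ≠ c 10 := e _ _ (by decide)
  have b4 : c 9 ≠ c 10 := e _ _ (by decide)
  refine aux_cycle (c 10) _ _ _ _ _ ⟨⟨aux_ne (c 10) (c 0) (c 5) b0, aux_ne (c 10) (c 1) (c 6) b1,
    aux_ne (c 10) (c 2) (c 7) b2, aux_ne (c 10) (c 3) (c 8) b3, aux_ne (c 10) (c 4) (c 9) b4⟩,
    aux_step _ _ _ _ _ ?_ ?_ ?_ b0 b1, aux_step _ _ _ _ _ ?_ ?_ ?_ b1 b2,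
    aux_step _ _ _ _ _ ?_ ?_ ?_ b2 b3, aux_step _ _ _ _ _ ?_ ?_ ?_ b3 b4,
    aux_step _ _ _ _ _ ?_ ?_ ?_ b4 b0⟩ <;>
  exact e _ _ (by decide)

/-- **Main theorem.** The class of canonical join complexes of finite semidistributive lattices is
not closed under induced subcomplexes: there are a finite semidistributive lattice `L` and a set
`W` of join-irreducible elements of `L` such that the subcomplex induced on `W` by the canonical
join complex of `L` is not isomorphic to the canonical join complex of any finite semidistributive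
lattice. -/
theorem result : ∃ (L : Type) (_ : Lattice L) (_ : Finite L), Semidistributive L ∧
    ∃ W : Set (JIrr L), ∀ (L' : Type u) [Lattice L'] [Finite L'], Semidistributive L' →
      ¬ Isomorphic (canonicalJoinComplex L') (induced (canonicalJoinComplex L) W) := by
  classical
  refine ⟨St gr, inferInstance, inferInstance, St.semidistributive, ?_⟩
  let g : Fin 11 → JIrr (St gr) := fun x => ⟨St.gen gr x, St.gen_supIrred gr_irrefl x⟩
  have hginj : Function.Injective g := by
    intro x y h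
    exact St.gen_injective (congrArg Subtype.val h)
  refine ⟨Set.range g, ?_⟩
  intro L' _ _ hL' hiso
  obtain ⟨e, he⟩ := hiso
  obtain ⟨low, kap, hd⟩ := exists_kdata (St.semidistributive (r := gr))
  have hlow : ∀ y : Fin 11, low (g y) = St.genLow gr y (gr_irrefl y) := fun y =>
    hd.low_eq (g y) (St.genLow_lt _) (fun t ht => St.le_genLow _ ht)
  have hkap : ∀ x y : Fin 11, x ≠ y → ((g x).1 ≤ kap (g y) ↔ ¬ gr x y) := by
    intro x y hne
    rw [hd.le_kap_iff, hlow, St.gen_arrow_iff gr_irrefl hne]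
  -- faces inside `W`
  have hface : ∀ x y : Fin 11, x ≠ y →
      (({g x, g y} : Finset (JIrr (St gr))) ∈ canonicalJoinComplex (St gr) ↔
        (¬ gr x y ∧ ¬ gr y x)) := by
    intro x y hne
    rw [hd.pair_mem_iff St.semidistributive (fun h => hne (hginj h)), hkap x y hne,
      hkap y x hne.symm]
  let q : Fin 11 → JIrr L' := fun x => e.symm ⟨g x, ⟨x, rfl⟩⟩
  have hqinj : Function.Injective q := by
    intro x y h
    have := e.symm.injective h
    exact hginj (congrArg Subtype.val this)
  have hqsurj : ∀ z : JIrr L', ∃ x, q x = z := by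
    intro z
    obtain ⟨x, hx⟩ := (e z).2
    refine ⟨x, ?_⟩
    show e.symm ⟨g x, ⟨x, rfl⟩⟩ = z
    rw [Equiv.symm_apply_eq]
    exact Subtype.ext hx
  have hnf : ∀ x y : Fin 11, NonFace L' (q x) (q y) ↔ (gr x y ∨ gr y x) := by
    intro x y
    have hpair : ∀ s : Finset (JIrr L'), (∀ z, z ∈ s ↔ z = q x ∨ z = q y) →
        ((s.map e.toEmbedding).map (Function.Embedding.subtype (· ∈ Set.range g))
          = ({g x, g y} : Finset (JIrr (St gr)))) := by
      intro s hs
      have hs' : s = {q x, q y} := by ext z; simp [hs z]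
      subst hs'
      ext z
      simp [q]
    constructor
    · rintro ⟨hne, h⟩
      have hxy : x ≠ y := fun h' => hne (by rw [h'])
      by_contra hcon
      push Not at hcon
      have h1 := (hface x y hxy).2 hcon
      refine h {q x, q y} (by simp) ?_
      rw [he]
      show ((({q x, q y} : Finset (JIrr L')).map e.toEmbedding).map
        (Function.Embedding.subtype (· ∈ Set.range g))) ∈ canonicalJoinComplex (St gr)
      rw [hpair {q x, q y} (by simp)]
      exact h1
    · intro h
      have hxy : x ≠ y := by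
        rintro rfl
        rcases h with h | h <;> exact gr_irrefl _ h
      refine ⟨fun h' => hxy (hqinj h'), ?_⟩
      intro s hs hmem
      rw [he] at hmem
      have h1 : ((s.map e.toEmbedding).map
        (Function.Embedding.subtype (· ∈ Set.range g))) ∈ canonicalJoinComplex (St gr) := hmem
      rw [hpair s hs, hface x y hxy] at h1
      tauto
  have htri : ∀ x y z : JIrr L', NonFace L' x y → NonFace L' y z → NonFace L' x z → False := by
    intro x y z h1 h2 h3
    obtain ⟨x, rfl⟩ := hqsurj x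
    obtain ⟨y, rfl⟩ := hqsurj y
    obtain ⟨z, rfl⟩ := hqsurj z
    exact gr_triangle x y z ((hnf _ _).1 h1) ((hnf _ _).1 h2) ((hnf _ _).1 h3)
  obtain ⟨c, hc⟩ := three_colour hL' htri
  exact gr_not_colourable (fun x => c (q x)) (fun x y hxy => hc _ _ ((hnf x y).2 (Or.inl hxy)))

end Pool.Agent.Results.MP_b1aa48_co.NotClosedInduced
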